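import Mathlib

/-!
# Hankel determinants of binary digit sums: a recursion by the parity of the indices

Let `s (2 k) = t * s k` and `s (2 k + 1) = t * s k + 1`. We prove a closed system of recursions for
the Hankel determinants of `s`, of its first differences and of its second differences, together
with the coefficients of the all ones perturbation of these matrices.
-/

namespace Pool.Agent.Q22.DigitHankel

open Matrix

set_option linter.unusedSectionVars false

section General

variable {R : Type*} [CommRing R]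
variable {ι κ : Type*} [Fintype ι] [DecidableEq ι] [Fintype κ] [DecidableEq κ]

/-- The bordered determinant with corner entry `0`. -/
noncomputable def bd (A : Matrix ι ι R) (u v : ι → R) : R :=
  (fromBlocks A (replicateCol Unit u) (replicateRow Unit v) (0 : Matrix Unit Unit R)).det

lemma fromBlocks_col (A : Matrix ι ι R) (u v : ι → R) (D : Matrix Unit Unit R) :
    fromBlocks A (replicateCol Unit u) (replicateRow Unit v) D =
      updateCol (fromBlocks A 0 (replicateRow Unit v) 0) (Sum.inr ())
        (Sum.elim u (fun _ => D () ())) := by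
  ext i j
  rcases i with i | i <;> rcases j with j | j <;> simp

lemma bd_add_left (A : Matrix ι ι R) (u u' v : ι → R) : bd A (u + u') v = bd A u v + bd A u' v := by
  unfold bd
  rw [fromBlocks_col, fromBlocks_col, fromBlocks_col, ← det_updateCol_add]
  congr 2
  ext i
  rcases i with i | i <;> simp

lemma bd_smul_left (A : Matrix ι ι R) (c : R) (u v : ι → R) : bd A (c • u) v = c * bd A u v := by
  unfold bd
  rw [fromBlocks_col, fromBlocks_col, ← det_updateCol_smul]
  congr 2
  ext i
  rcases i with i | i <;> simp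

lemma bd_transpose (A : Matrix ι ι R) (u v : ι → R) : bd Aᵀ v u = bd A u v := by
  unfold bd
  rw [← det_transpose, fromBlocks_transpose]
  rfl

lemma bd_add_right (A : Matrix ι ι R) (u v v' : ι → R) : bd A u (v + v') = bd A u v + bd A u v' := by
  rw [← bd_transpose, bd_add_left, bd_transpose, bd_transpose]

lemma det_sub_mul (A : Matrix ι ι R) (u v : ι → R) :
    (A - replicateCol Unit u * replicateRow Unit v).det = A.det + bd A u v := by
  have h1 := det_fromBlocks_one₂₂ A (replicateCol Unit u) (replicateRow Unit v)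
  have h2 := det_fromBlocks_one₂₂ A (replicateCol Unit (0 : ι → R)) (replicateRow Unit v)
  have h3 : replicateCol Unit (0 : ι → R) * replicateRow Unit v = 0 := by
    ext i j; simp [Matrix.mul_apply]
  rw [h3, sub_zero] at h2
  rw [← h1, ← h2]
  unfold bd
  rw [fromBlocks_col, fromBlocks_col, fromBlocks_col, ← det_updateCol_add]
  congr 2
  ext i
  rcases i with i | i <;> simp

/-- The all ones matrix. -/
def J (ι κ R : Type*) [One R] : Matrix ι κ R := of fun _ _ => 1

@[simp] lemma J_apply (i : ι) (j : κ) : J ι κ R i j = 1 := rfl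

/-- The sum of all cofactors. -/
noncomputable def al (A : Matrix ι ι R) : R := - bd A 1 1

lemma det_add_smul_J (A : Matrix ι ι R) (x : R) : (A + x • J ι ι R).det = A.det + x * al A := by
  have h := det_sub_mul A (fun _ => -x) (fun _ => 1)
  have hb : bd A (fun _ => -x) (fun _ => 1) = -x * bd A 1 1 := by
    rw [← bd_smul_left]
    congr 1
    ext i
    simp
  have e : A - replicateCol Unit (fun _ : ι => -x) * replicateRow Unit (fun _ : ι => (1 : R)) =
      A + x • J ι ι R := by
    ext i j
    simp [Matrix.mul_apply]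
  rw [e, hb] at h
  rw [h, al]
  ring

lemma al_eq (A : Matrix ι ι R) : al A = (A + J ι ι R).det - A.det := by
  have := det_add_smul_J A 1
  rw [one_smul, one_mul] at this
  rw [this]
  ring

/-- Characterisation of `al`. -/
lemma al_unique (A : Matrix ι ι R) {a b : R} (h : ∀ x : R, (A + x • J ι ι R).det = a + x * b) :
    A.det = a ∧ al A = b := by
  have h0 := h 0
  have h1 := h 1
  rw [det_add_smul_J] at h0 h1
  have e : A.det = a := by simpa using h0
  refine ⟨e, ?_⟩
  rw [e] at h1
  simpa using h1

lemma al_add_smul_J (A : Matrix ι ι R) (x : R) : al (A + x • J ι ι R) = al A := by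
  refine (al_unique _ (a := A.det + x * al A) fun y => ?_).2
  rw [add_assoc, ← add_smul, det_add_smul_J]
  ring

lemma al_smul (A : Matrix ι ι R) (c : R) : c * al (c • A) = c ^ Fintype.card ι * al A := by
  have h := det_add_smul_J (c • A) c
  rw [← smul_add, det_smul, det_smul] at h
  have h2 := det_add_smul_J A 1
  rw [one_smul, one_mul] at h2
  rw [h2] at h
  linear_combination -h

lemma al_diag (X : Matrix ι ι R) (Y : Matrix κ κ R) :
    al (fromBlocks X 0 0 Y) = al X * Y.det + X.det * al Y := by
  set e1 : ι ⊕ κ → R := Sum.elim 1 0 with he1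
  set e2 : ι ⊕ κ → R := Sum.elim 0 1 with he2
  have e12 : (1 : ι ⊕ κ → R) = e1 + e2 := by
    ext i
    rcases i with i | i <;> simp [he1, he2]
  have h11 : bd (fromBlocks X 0 0 Y) e1 e1 = - al X * Y.det := by
    have h := det_sub_mul (fromBlocks X 0 0 Y) e1 e1
    have e : fromBlocks X 0 0 Y - replicateCol Unit e1 * replicateRow Unit e1 =
        fromBlocks (X + (-1 : R) • J ι ι R) 0 0 Y := by
      ext i j
      rcases i with i | i <;> rcases j with j | j <;> simp [Matrix.mul_apply, he1, sub_eq_add_neg]
    rw [e, det_fromBlocks_zero₂₁, det_fromBlocks_zero₂₁, det_add_smul_J] at h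
    linear_combination -h
  have h22 : bd (fromBlocks X 0 0 Y) e2 e2 = - X.det * al Y := by
    have h := det_sub_mul (fromBlocks X 0 0 Y) e2 e2
    have e : fromBlocks X 0 0 Y - replicateCol Unit e2 * replicateRow Unit e2 =
        fromBlocks X 0 0 (Y + (-1 : R) • J κ κ R) := by
      ext i j
      rcases i with i | i <;> rcases j with j | j <;> simp [Matrix.mul_apply, he2, sub_eq_add_neg]
    rw [e, det_fromBlocks_zero₂₁, det_fromBlocks_zero₂₁, det_add_smul_J] at h
    linear_combination -h
  have h12 : bd (fromBlocks X 0 0 Y) e1 e2 = 0 := by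
    have h := det_sub_mul (fromBlocks X 0 0 Y) e1 e2
    have e : fromBlocks X 0 0 Y - replicateCol Unit e1 * replicateRow Unit e2 =
        fromBlocks X (- J ι κ R) 0 Y := by
      ext i j
      rcases i with i | i <;> rcases j with j | j <;> simp [Matrix.mul_apply, he1, he2]
    rw [e, det_fromBlocks_zero₂₁, det_fromBlocks_zero₂₁] at h
    linear_combination -h
  have h21 : bd (fromBlocks X 0 0 Y) e2 e1 = 0 := by
    have h := det_sub_mul (fromBlocks X 0 0 Y) e2 e1
    have e : fromBlocks X 0 0 Y - replicateCol Unit e2 * replicateRow Unit e1 =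
        fromBlocks X 0 (- J κ ι R) Y := by
      ext i j
      rcases i with i | i <;> rcases j with j | j <;> simp [Matrix.mul_apply, he1, he2]
    rw [e, det_fromBlocks_zero₁₂, det_fromBlocks_zero₂₁] at h
    linear_combination -h
  rw [al, e12, bd_add_left, bd_add_right, bd_add_right, h11, h12, h21, h22]
  ring

/-- The determinant of `[[P, J], [J, Q]]`. -/
lemma det_blocks (P : Matrix ι ι R) (Q : Matrix κ κ R) :
    (fromBlocks P (J ι κ R) (J κ ι R) Q).det = P.det * Q.det - al P * al Q := by
  have e : fromBlocks P (J ι κ R) (J κ ι R) Q =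
      fromBlocks (P + (-1 : R) • J ι ι R) 0 0 (Q + (-1 : R) • J κ κ R) +
        (1 : R) • J (ι ⊕ κ) (ι ⊕ κ) R := by
    ext i j
    rcases i with i | i <;> rcases j with j | j <;> simp
  rw [e, det_add_smul_J, al_diag, det_fromBlocks_zero₂₁, det_add_smul_J, det_add_smul_J,
    al_add_smul_J, al_add_smul_J]
  ring

/-- Row operation: add `c` times the upper row `σ i` to the lower row `i`. -/
lemma det_rowop (P : Matrix ι ι R) (B : Matrix ι κ R) (C : Matrix κ ι R) (D : Matrix κ κ R)
    (σ : κ → ι) (c : R) :
    (fromBlocks P B C D).det =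
      (fromBlocks P B (C + c • P.submatrix σ id) (D + c • B.submatrix σ id)).det := by
  set T : Matrix κ ι R := of fun i j => if σ i = j then c else 0 with hT
  have h : fromBlocks P B (C + c • P.submatrix σ id) (D + c • B.submatrix σ id) =
      fromBlocks 1 0 T 1 * fromBlocks P B C D := by
    rw [fromBlocks_multiply]
    congr 1
    · simp
    · simp
    · ext i j
      simp [Matrix.mul_apply, hT, add_comm]
    · ext i j
      simp [Matrix.mul_apply, hT, add_comm]
  rw [h, det_mul, det_fromBlocks_zero₁₂]
  simp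

/-- Column operation: add `c` times the left column `σ j` to the right column `j`. -/
lemma det_colop (P : Matrix ι ι R) (B : Matrix ι κ R) (C : Matrix κ ι R) (D : Matrix κ κ R)
    (σ : κ → ι) (c : R) :
    (fromBlocks P B C D).det =
      (fromBlocks P (B + c • P.submatrix id σ) C (D + c • C.submatrix id σ)).det := by
  rw [← det_transpose, fromBlocks_transpose, det_rowop _ _ _ _ σ c, ← det_transpose,
    fromBlocks_transpose]
  congr 1

/-- Anti-triangular block matrices with square blocks. -/
lemma det_anti (A B C : Matrix ι ι R) :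
    (fromBlocks A B C 0).det = (-1) ^ Fintype.card ι * (B.det * C.det) := by
  have h1 : (fromBlocks (0 : Matrix ι ι R) (1 : Matrix ι ι R) (1 : Matrix ι ι R)
      (0 : Matrix ι ι R)).det = (-1) ^ Fintype.card ι := by
    have h : (fromBlocks (0 : Matrix ι ι R) (1 : Matrix ι ι R) (1 : Matrix ι ι R)
        (0 : Matrix ι ι R)) * fromBlocks (1 : Matrix ι ι R) (1 : Matrix ι ι R)
          (0 : Matrix ι ι R) (1 : Matrix ι ι R) = fromBlocks 0 1 1 1 := by
      rw [fromBlocks_multiply]; simp
    have h2 := congrArg det h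
    rw [det_mul, det_fromBlocks_zero₂₁, det_fromBlocks_one₂₂] at h2
    simpa [det_neg] using h2
  have h : fromBlocks A B C 0 * fromBlocks (0 : Matrix ι ι R) (1 : Matrix ι ι R)
      (1 : Matrix ι ι R) (0 : Matrix ι ι R) = fromBlocks B A 0 C := by
    rw [fromBlocks_multiply]; simp
  have h2 := congrArg det h
  rw [det_mul, det_fromBlocks_zero₂₁, h1] at h2
  rw [← h2]
  have h3 : ((-1 : R) ^ Fintype.card ι) * (-1) ^ Fintype.card ι = 1 := by
    rw [← mul_pow]; simp
  linear_combination -(fromBlocks A B C 0).det * h3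

/-- The matrix `[1 | U]`. -/
def border {n : ℕ} (U : Matrix (Fin (n + 1)) (Fin n) R) : Matrix (Fin (n + 1)) (Fin (n + 1)) R :=
  of fun i j => Fin.cases 1 (fun j => U i j) j

@[simp] lemma border_zero {n : ℕ} (U : Matrix (Fin (n + 1)) (Fin n) R) (i) : border U i 0 = 1 := rfl

@[simp] lemma border_succ {n : ℕ} (U : Matrix (Fin (n + 1)) (Fin n) R) (i) (j : Fin n) :
    border U i j.succ = U i j := rfl

/-- Anti-triangular block matrices with a constant block of size `n + 1` and a zero block of size
`n`. -/
lemma det_anti_odd {n : ℕ} (c : R) (U V : Matrix (Fin (n + 1)) (Fin n) R) :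
    (fromBlocks (c • J (Fin (n + 1)) (Fin (n + 1)) R) U Vᵀ 0).det =
      (-1) ^ n * c * ((border U).det * (border V).det) := by
  set Z1 : Matrix (Fin (n + 1)) (Fin (n + 1)) R :=
    of fun i j => if i = 0 ∧ j = 0 then c else 0 with hZ1
  set Z2 : Matrix (Fin (n + 1)) (Fin n) R := of fun i j => if i = j.succ then 1 else 0 with hZ2
  have hf : fromBlocks (c • J (Fin (n + 1)) (Fin (n + 1)) R) U Vᵀ 0 =
      fromBlocks (border U) 0 0 1 * fromBlocks Z1 Z2 Z2ᵀ 0 * fromBlocks (border V)ᵀ 0 0 1 := by
    rw [fromBlocks_multiply, fromBlocks_multiply]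
    congr 1
    · ext i j
      simp [Matrix.mul_apply, Fin.sum_univ_succ, hZ1]
    · ext i j
      simp [Matrix.mul_apply, Fin.sum_univ_succ, hZ2, Fin.succ_ne_zero]
    · ext i j
      simp [Matrix.mul_apply, Fin.sum_univ_succ, hZ2, Fin.succ_ne_zero]
    · simp
  have hz : (fromBlocks Z1 Z2 Z2ᵀ 0).det = (-1) ^ n * c := by
    have h : fromBlocks Z1 Z2 Z2ᵀ 0 * fromBlocks 1 Z2 0 1 = fromBlocks Z1 Z2 Z2ᵀ 1 := by
      rw [fromBlocks_multiply]
      congr 1
      · simp
      · ext i j
        simp [Matrix.mul_apply, Fin.sum_univ_succ, hZ1, hZ2, Fin.succ_ne_zero]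
      · simp
      · ext i j
        simp [Matrix.mul_apply, hZ2, Matrix.one_apply, eq_comm]
    have h2 := congrArg det h
    rw [det_mul, det_fromBlocks_zero₂₁, det_fromBlocks_one₂₂, det_one, det_one, mul_one,
      mul_one] at h2
    rw [h2]
    have h3 : Z1 - Z2 * Z2ᵀ = diagonal (Fin.cases c fun _ => -1) := by
      ext i j
      refine Fin.cases ?_ (fun i => ?_) i <;> refine Fin.cases ?_ (fun j => ?_) j
      · simp [Matrix.mul_apply, hZ1, hZ2, (Fin.succ_ne_zero _).symm]
      · simp [Matrix.mul_apply, hZ1, hZ2, (Fin.succ_ne_zero _).symm]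
      · simp [Matrix.mul_apply, hZ1, hZ2, (Fin.succ_ne_zero _).symm, Fin.succ_ne_zero]
      · by_cases hij : i = j
        · subst hij
          simp [Matrix.mul_apply, hZ1, hZ2, Fin.succ_ne_zero]
        · have hij' : i.succ ≠ j.succ := fun h => hij (Fin.succ_injective _ h)
          simp [Matrix.mul_apply, hZ1, hZ2, Fin.succ_ne_zero, hij, diagonal_apply_ne]
    rw [h3, det_diagonal, Fin.prod_univ_succ]
    simp [mul_comm]
  rw [hf, det_mul, det_mul, det_fromBlocks_zero₂₁, det_fromBlocks_zero₂₁, hz, det_one, mul_one,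
    mul_one, det_transpose]
  ring

/-- The determinant of `[1 | U]` by consecutive differences of rows. -/
lemma det_border {n : ℕ} (U : Matrix (Fin (n + 1)) (Fin n) R) :
    (border U).det = (of fun i j : Fin n => U i.succ j - U i.castSucc j).det := by
  have h := det_eq_of_forall_row_eq_smul_add_pred (A := border U)
    (B := of fun i j => Fin.cases (border U 0 j)
      (fun i => border U i.succ j - border U i.castSucc j) i) (fun _ => 1) (fun j => rfl)
    (fun i j => by simp)
  rw [h, det_succ_column_zero, Fin.sum_univ_succ]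
  simp
  rfl

end General

section Hankel

variable {R : Type*} [CommRing R]

/-- Rectangular Hankel matrices. -/
def hr (f : ℕ → R) (m n : ℕ) : Matrix (Fin m) (Fin n) R := of fun i j => f (i + j)

@[simp] lemma hr_apply (f : ℕ → R) {m n : ℕ} (i : Fin m) (j : Fin n) : hr f m n i j = f (i + j) :=
  rfl

lemma hr_add (f : ℕ → R) (x : R) (m n : ℕ) :
    hr f m n + x • J (Fin m) (Fin n) R = hr (fun k => f k + x) m n := by
  ext i j
  simp

/-- Even indices first, then odd indices. -/
def par {m n : ℕ} (h1 : n ≤ m) (h2 : m ≤ n + 1) : Fin m ⊕ Fin n → Fin (m + n) :=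
  Sum.elim (fun i => ⟨2 * i, by omega⟩) (fun j => ⟨2 * j + 1, by omega⟩)

lemma par_bijective {m n : ℕ} (h1 : n ≤ m) (h2 : m ≤ n + 1) : Function.Bijective (par h1 h2) := by
  rw [Fintype.bijective_iff_injective_and_card]
  refine ⟨?_, by simp⟩
  rintro (i | i) (j | j) h <;> simp [par, Fin.ext_iff] at h ⊢ <;> omega

lemma det_split (f : ℕ → R) {m n : ℕ} (h1 : n ≤ m) (h2 : m ≤ n + 1) :
    (hr f (m + n) (m + n)).det =
      (fromBlocks (hr (fun k => f (2 * k)) m m) (hr (fun k => f (2 * k + 1)) m n)
        (hr (fun k => f (2 * k + 1)) n m) (hr (fun k => f (2 * k + 2)) n n)).det := by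
  rw [← det_submatrix_equiv_self (Equiv.ofBijective _ (par_bijective h1 h2))]
  congr 1
  ext i j
  rcases i with i | i <;> rcases j with j | j <;> simp [par] <;> congr 1 <;> ring

variable (s : ℕ → R) (t : R)

/-- First differences. -/
def dd (k : ℕ) : R := s (k + 1) - s k

/-- Second differences. -/
def d2 (k : ℕ) : R := dd s (k + 1) - dd s k

/-- The matrix `t Δ - 2 J`. -/
def QQ (n : ℕ) : Matrix (Fin n) (Fin n) R := t • hr (dd s) n n + (-2 : R) • J (Fin n) (Fin n) R

lemma det_QQ (n : ℕ) : (QQ s t n).det = (t • hr (dd s) n n).det - 2 * al (t • hr (dd s) n n) := by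
  rw [QQ, det_add_smul_J]
  ring

variable {s t} (h0 : ∀ k, s (2 * k) = t * s k) (h1 : ∀ k, s (2 * k + 1) = t * s k + 1)

include h0 h1

lemma dd_even (k : ℕ) : dd s (2 * k) = 1 := by
  rw [dd, h0, h1]
  ring

lemma dd_odd (k : ℕ) : dd s (2 * k + 1) = t * dd s k - 1 := by
  rw [dd, dd, h1, show 2 * k + 1 + 1 = 2 * (k + 1) by ring, h0]
  ring

lemma dd_even' (k : ℕ) : dd s (2 * k + 2) = 1 := by
  rw [show 2 * k + 2 = 2 * (k + 1) by ring, dd_even h0 h1]

lemma d2_even (k : ℕ) : d2 s (2 * k) = t * dd s k - 2 := by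
  rw [d2, dd_odd h0 h1, dd_even h0 h1]
  ring

lemma d2_odd (k : ℕ) : d2 s (2 * k + 1) = 2 - t * dd s k := by
  rw [d2, show 2 * k + 1 + 1 = 2 * k + 2 by ring, dd_odd h0 h1, dd_even' h0 h1]
  ring

lemma d2_even' (k : ℕ) : d2 s (2 * k + 2) = t * dd s (k + 1) - 2 := by
  rw [show 2 * k + 2 = 2 * (k + 1) by ring, d2_even h0 h1]

/-- Recursion for the Hankel determinants of `s` (with the all ones perturbation). -/
theorem rec_s {m n : ℕ} (hm : n ≤ m) (hn : m ≤ n + 1) (x : R) :
    (hr s (m + n) (m + n) + x • J _ _ R).det =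
      ((t • hr s m m).det * (QQ s t n).det -
        al (t • hr s m m) * al (t • hr (dd s) n n)) +
      x * (al (t • hr s m m) * (QQ s t n).det) := by
  rw [hr_add, det_split _ hm hn, det_rowop _ _ _ _ (Fin.castLE hm) (-1),
    det_colop _ _ _ _ (Fin.castLE hm) (-1)]
  have e : (fromBlocks (hr (fun k => s (2 * k) + x) m m)
      (hr (fun k => s (2 * k + 1) + x) m n +
        (-1 : R) • (hr (fun k => s (2 * k) + x) m m).submatrix id (Fin.castLE hm))
      (hr (fun k => s (2 * k + 1) + x) n m +
        (-1 : R) • (hr (fun k => s (2 * k) + x) m m).submatrix (Fin.castLE hm) id)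
      (hr (fun k => s (2 * k + 2) + x) n n +
        (-1 : R) • (hr (fun k => s (2 * k + 1) + x) m n).submatrix (Fin.castLE hm) id +
        (-1 : R) • (hr (fun k => s (2 * k + 1) + x) n m +
          (-1 : R) • (hr (fun k => s (2 * k) + x) m m).submatrix (Fin.castLE hm) id).submatrix id
            (Fin.castLE hm))) =
      fromBlocks (t • hr s m m + x • J _ _ R) (J _ _ R) (J _ _ R) (QQ s t n) := by
    congr 1
    · ext i j
      simp [h0]
    · ext i j
      simp [h0, h1]
    · ext i j
      simp [h0, h1]
    · ext i j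
      simp only [QQ, dd, Matrix.add_apply, Matrix.smul_apply, hr_apply, submatrix_apply, id_eq, Fin.val_castLE,
        smul_eq_mul, J_apply, h0, h1]
      rw [show 2 * ((i : ℕ) + j) + 2 = 2 * (i + j + 1) by ring, h0]
      ring
  rw [e, det_blocks, det_add_smul_J, al_add_smul_J, QQ, al_add_smul_J]
  ring

/-- Recursion for the Hankel determinants of the second differences. -/
theorem rec_d2 {m n : ℕ} (hm : n ≤ m) (hn : m ≤ n + 1) :
    (hr (d2 s) (m + n) (m + n)).det = (QQ s t m).det * (t ^ n * (hr (d2 s) n n).det) := by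
  rw [det_split _ hm hn, det_rowop _ _ _ _ (Fin.castLE hm) 1]
  have e : (fromBlocks (hr (fun k => d2 s (2 * k)) m m) (hr (fun k => d2 s (2 * k + 1)) m n)
      (hr (fun k => d2 s (2 * k + 1)) n m +
        (1 : R) • (hr (fun k => d2 s (2 * k)) m m).submatrix (Fin.castLE hm) id)
      (hr (fun k => d2 s (2 * k + 2)) n n +
        (1 : R) • (hr (fun k => d2 s (2 * k + 1)) m n).submatrix (Fin.castLE hm) id)) =
      fromBlocks (QQ s t m) (hr (fun k => d2 s (2 * k + 1)) m n) 0 (t • hr (d2 s) n n) := by
    congr 1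
    · ext i j
      simp [QQ, d2_even h0 h1]
      ring
    · ext i j
      simp [d2_even h0 h1, d2_odd h0 h1]
    · ext i j
      simp [d2_even' h0 h1, d2_odd h0 h1]
      rw [d2]
      ring
  rw [e, det_fromBlocks_zero₂₁, det_smul]
  simp

/-- Recursion for the Hankel determinants of the first differences, even size. -/
theorem rec_dd_even (n : ℕ) (x : R) :
    (hr (dd s) (n + n) (n + n) + x • J _ _ R).det =
      (-1) ^ n * ((QQ s t n).det * (t • hr (dd s) n n).det) +
        x * ((-1) ^ n * (2 * (QQ s t n).det * al (t • hr (dd s) n n))) := by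
  rw [hr_add, det_split _ le_rfl (Nat.le_succ n), det_rowop _ _ _ _ id 1,
    det_colop _ _ _ _ id (-1)]
  have e : (fromBlocks (hr (fun k => dd s (2 * k) + x) n n)
      (hr (fun k => dd s (2 * k + 1) + x) n n +
        (-1 : R) • (hr (fun k => dd s (2 * k) + x) n n).submatrix id id)
      (hr (fun k => dd s (2 * k + 1) + x) n n +
        (1 : R) • (hr (fun k => dd s (2 * k) + x) n n).submatrix id id)
      (hr (fun k => dd s (2 * k + 2) + x) n n +
        (1 : R) • (hr (fun k => dd s (2 * k + 1) + x) n n).submatrix id id +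
        (-1 : R) • (hr (fun k => dd s (2 * k + 1) + x) n n +
          (1 : R) • (hr (fun k => dd s (2 * k) + x) n n).submatrix id id).submatrix id id)) =
      fromBlocks (hr (fun k => dd s (2 * k) + x) n n) (QQ s t n)
        (t • hr (dd s) n n + (2 * x) • J _ _ R) 0 := by
    congr 1
    · ext i j
      simp [QQ, dd_even h0 h1, dd_odd h0 h1]
      ring
    · ext i j
      simp [dd_even h0 h1, dd_odd h0 h1]
      ring
    · ext i j
      simp [dd_even h0 h1, dd_even' h0 h1, dd_odd h0 h1]
      ring
  rw [e, det_anti, det_add_smul_J]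
  simp
  ring

/-- Recursion for the Hankel determinants of the first differences, odd size. -/
theorem rec_dd_odd (n : ℕ) (x : R) :
    (hr (dd s) (n + 1 + n) (n + 1 + n) + x • J _ _ R).det =
      (-1) ^ n * (t ^ n * (hr (d2 s) n n).det) ^ 2 +
        x * ((-1) ^ n * (t ^ n * (hr (d2 s) n n).det) ^ 2) := by
  rw [hr_add, det_split _ (Nat.le_succ n) le_rfl, det_rowop _ _ _ _ Fin.castSucc 1,
    det_colop _ _ _ _ Fin.castSucc (-1)]
  have e : (fromBlocks (hr (fun k => dd s (2 * k) + x) (n + 1) (n + 1))
      (hr (fun k => dd s (2 * k + 1) + x) (n + 1) n +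
        (-1 : R) • (hr (fun k => dd s (2 * k) + x) (n + 1) (n + 1)).submatrix id Fin.castSucc)
      (hr (fun k => dd s (2 * k + 1) + x) n (n + 1) +
        (1 : R) • (hr (fun k => dd s (2 * k) + x) (n + 1) (n + 1)).submatrix Fin.castSucc id)
      (hr (fun k => dd s (2 * k + 2) + x) n n +
        (1 : R) • (hr (fun k => dd s (2 * k + 1) + x) (n + 1) n).submatrix Fin.castSucc id +
        (-1 : R) • (hr (fun k => dd s (2 * k + 1) + x) n (n + 1) +
          (1 : R) • (hr (fun k => dd s (2 * k) + x) (n + 1) (n + 1)).submatrix Fin.castSucc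
            id).submatrix id Fin.castSucc)) =
      fromBlocks ((1 + x) • J _ _ R) (hr (fun k => t * dd s k - 2) (n + 1) n)
        (hr (fun k => t * dd s k + 2 * x) (n + 1) n)ᵀ 0 := by
    congr 1
    · ext i j
      simp [dd_even h0 h1]
    · ext i j
      simp [dd_even h0 h1, dd_odd h0 h1]
      ring
    · ext i j
      simp [dd_even h0 h1, dd_odd h0 h1, add_comm (j : ℕ) (i : ℕ)]
      ring
    · ext i j
      simp [dd_even h0 h1, dd_even' h0 h1, dd_odd h0 h1]
      ring
  have b : ∀ y : R, (border (hr (fun k => t * dd s k + y) (n + 1) n)).det =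
      t ^ n * (hr (d2 s) n n).det := by
    intro y
    rw [det_border]
    have : (of fun i j : Fin n => hr (fun k => t * dd s k + y) (n + 1) n i.succ j -
        hr (fun k => t * dd s k + y) (n + 1) n i.castSucc j) = t • hr (d2 s) n n := by
      ext i j
      simp [d2]
      rw [show (i : ℕ) + 1 + j = i + j + 1 by ring]
      ring
    rw [this, det_smul]
    simp
  have b1 := b (-2)
  simp only [← sub_eq_add_neg] at b1
  rw [e, det_anti_odd, b, b1]
  ring

end Hankel

end Pool.Agent.Q22.DigitHankel
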