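import Mathlib

/-!
# The Erdős–Gallai theorem (sufficiency), in subset form

A function `d : V → ℕ` on a finite type with even sum such that for every finite set `A` of
vertices `∑_{a ∈ A} d a ≤ |A| (|A| - 1) + ∑_{b ∉ A} min (d b) |A|` is the degree function of a
simple graph on `V`.
-/

namespace Q22.EG
open Finset

variable {V : Type*} [Fintype V] [DecidableEq V]

/-- `d` is the degree function of a symmetric irreflexive neighbourhood system. -/
def Real (d : V → ℕ) : Prop :=
  ∃ N : V → Finset V, (∀ u v, u ∈ N v ↔ v ∈ N u) ∧ (∀ v, v ∉ N v) ∧ ∀ v, (N v).card = d v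

omit [Fintype V] in
/-- adding an edge -/
theorem add_edge {N : V → Finset V} (hs : ∀ u v, u ∈ N v ↔ v ∈ N u) (hi : ∀ v, v ∉ N v)
    {x y : V} (hxy : x ≠ y) (hn : y ∉ N x) (d : V → ℕ) (hx : d x = (N x).card + 1)
    (hy : d y = (N y).card + 1) (ho : ∀ v, v ≠ x → v ≠ y → d v = (N v).card) : Real d := by
  have hn' : x ∉ N y := fun h => hn ((hs _ _).1 h)
  refine ⟨fun v => if v = x then insert y (N x) else if v = y then insert x (N y) else N v,
    ?_, ?_, ?_⟩
  · intro u v
    have := hs u v
    by_cases hux : u = x <;> by_cases huy : u = y <;> by_cases hvx : v = x <;>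
      by_cases hvy : v = y <;> subst_vars <;> simp_all
  · intro v
    by_cases hvx : v = x <;> by_cases hvy : v = y <;> subst_vars <;> simp_all
  · intro v
    by_cases hvx : v = x
    · subst hvx; simp [card_insert_of_notMem hn, hx]
    · by_cases hvy : v = y
      · subst hvy; simp [card_insert_of_notMem hn', hy, hvx]
      · simp [hvx, hvy, ho v hvx hvy]

omit [Fintype V] in
/-- switching -/
theorem switch {N : V → Finset V} (hs : ∀ u v, u ∈ N v ↔ v ∈ N u) (hi : ∀ v, v ∉ N v)
    {x y z w : V} (hxy : x ≠ y) (hxz : x ≠ z) (hxw : x ≠ w) (hyz : y ≠ z) (hyw : y ≠ w)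
    (hzw : z ≠ w) (h1 : z ∉ N x) (h2 : w ∉ N y) (h3 : w ∈ N z)
    (d : V → ℕ) (hx : d x = (N x).card + 1)
    (hy : d y = (N y).card + 1) (ho : ∀ v, v ≠ x → v ≠ y → d v = (N v).card) : Real d := by
  have h1' : x ∉ N z := fun h => h1 ((hs _ _).1 h)
  have h2' : y ∉ N w := fun h => h2 ((hs _ _).1 h)
  have h3' : z ∈ N w := (hs _ _).1 h3
  refine ⟨fun v => if v = x then insert z (N x) else if v = y then insert w (N y) else
    if v = z then insert x ((N z).erase w) else if v = w then insert y ((N w).erase z) else N v,
    ?_, ?_, ?_⟩
  · intro u v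
    have := hs u v
    by_cases hux : u = x
    · subst hux
      by_cases hvx : v = u
      · subst hvx; simp
      by_cases hvy : v = y
      · subst hvy; simp_all [Ne.symm hxy]
      by_cases hvz : v = z
      · subst hvz; simp_all
      by_cases hvw : v = w
      · subst hvw; simp_all
      simp_all
    by_cases huy : u = y
    · subst huy
      by_cases hvx : v = x
      · subst hvx; simp_all
      by_cases hvy : v = u
      · subst hvy; simp
      by_cases hvz : v = z
      · subst hvz; simp_all
      by_cases hvw : v = w
      · subst hvw; simp_all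
      simp_all
    by_cases huz : u = z
    · subst huz
      by_cases hvx : v = x
      · subst hvx; simp_all
      by_cases hvy : v = y
      · subst hvy; simp_all
      by_cases hvz : v = u
      · subst hvz; simp
      by_cases hvw : v = w
      · subst hvw; simp_all
      simp_all
    by_cases huw : u = w
    · subst huw
      by_cases hvx : v = x
      · subst hvx; simp_all
      by_cases hvy : v = y
      · subst hvy; simp_all
      by_cases hvz : v = z
      · subst hvz; simp_all
      by_cases hvw : v = u
      · subst hvw; simp
      simp_all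
    by_cases hvx : v = x
    · subst hvx; simp_all
    by_cases hvy : v = y
    · subst hvy; simp_all
    by_cases hvz : v = z
    · subst hvz; simp_all
    by_cases hvw : v = w
    · subst hvw; simp_all
    simp_all
  · intro v
    by_cases hvx : v = x
    · subst hvx; simp_all
    by_cases hvy : v = y
    · subst hvy; simp_all
    by_cases hvz : v = z
    · subst hvz; simp_all
    by_cases hvw : v = w
    · subst hvw; simp_all
    simp_all
  · intro v
    by_cases hvx : v = x
    · subst hvx; simp [card_insert_of_notMem h1, hx]
    by_cases hvy : v = y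
    · subst hvy; simp [card_insert_of_notMem h2, hy, hvx]
    by_cases hvz : v = z
    · subst hvz
      have : x ∉ (N v).erase w := fun h => h1' (mem_of_mem_erase h)
      simp only [hvx, hvy, if_false, if_true, card_insert_of_notMem this, card_erase_of_mem h3,
        ho v hvx hvy]
      have := card_pos.2 ⟨w, h3⟩
      omega
    by_cases hvw : v = w
    · subst hvw
      have : y ∉ (N v).erase z := fun h => h2' (mem_of_mem_erase h)
      simp only [hvx, hvy, hvz, if_false, if_true, card_insert_of_notMem this,
        card_erase_of_mem h3', ho v hvx hvy]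
      have := card_pos.2 ⟨z, h3'⟩
      omega
    simp [hvx, hvy, hvz, hvw, ho v hvx hvy]

theorem mul_pred_add (k : ℕ) : k * (k - 1) + k = k * k := by
  rcases k with _ | k
  · simp
  · simp only [Nat.add_sub_cancel]; ring

/-- The Erdős–Gallai theorem in subset form. -/
theorem eg (n : ℕ) : ∀ (d : V → ℕ), ∑ v, d v = n → Even n →
    (∀ A : Finset V, ∑ a ∈ A, d a ≤ A.card * (A.card - 1) + ∑ b ∈ Aᶜ, min (d b) A.card) →
    Real d := by
  induction n using Nat.strong_induction_on with
  | _ n ih =>
  intro d hsum hev h
  by_cases h0 : ∀ v, d v = 0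
  · exact ⟨fun _ => ∅, by simp, by simp, by simp [h0]⟩
  push Not at h0
  obtain ⟨v₀, hv₀⟩ := h0
  obtain ⟨x, -, hmax⟩ := exists_max_image univ d ⟨v₀, mem_univ _⟩
  have hmax : ∀ v, d v ≤ d x := fun v => hmax v (mem_univ _)
  have hx1 : 1 ≤ d x := by have := hmax v₀; omega
  -- another positive vertex
  have hne : (univ.filter (fun v => v ≠ x ∧ 0 < d v)).Nonempty := by
    by_contra hcon
    rw [not_nonempty_iff_eq_empty, filter_eq_empty_iff] at hcon
    have h1 := h {x}
    simp only [sum_singleton, card_singleton, Nat.sub_self, mul_zero, zero_add] at h1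
    have h2 : ∑ b ∈ ({x} : Finset V)ᶜ, min (d b) 1 = 0 := by
      apply sum_eq_zero
      intro b hb
      have hb' : b ≠ x := by simpa using hb
      have := hcon (mem_univ b)
      push Not at this
      have := this hb'
      omega
    omega
  obtain ⟨y, hy, hmin⟩ := exists_min_image _ d hne
  simp only [mem_filter, mem_univ, true_and, and_imp] at hy hmin
  obtain ⟨hyx, hy1⟩ := hy
  set d' : V → ℕ := fun v => d v - (if v = x then 1 else 0) - (if v = y then 1 else 0) with hd'
  have hdd : ∀ v, d v = d' v + (if v = x then 1 else 0) + (if v = y then 1 else 0) := by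
    intro v
    simp only [hd']
    by_cases hvx : v = x
    · subst hvx; simp [Ne.symm hyx]; omega
    · by_cases hvy : v = y
      · subst hvy; simp [hvx]; omega
      · simp [hvx, hvy]
  have hsumB : ∀ B : Finset V, ∑ v ∈ B, d v = ∑ v ∈ B, d' v + (if x ∈ B then 1 else 0)
      + (if y ∈ B then 1 else 0) := by
    intro B
    rw [sum_congr rfl (fun v _ => hdd v), sum_add_distrib, sum_add_distrib, sum_ite_eq',
      sum_ite_eq']
  have hminB : ∀ (B : Finset V) (k : ℕ), ∑ v ∈ B, min (d v) k = ∑ v ∈ B, min (d' v) k
      + (if x ∈ B then (if d x ≤ k then 1 else 0) else 0)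
      + (if y ∈ B then (if d y ≤ k then 1 else 0) else 0) := by
    intro B k
    have : ∀ v ∈ B, min (d v) k = min (d' v) k + (if v = x then (if d x ≤ k then 1 else 0) else 0)
        + (if v = y then (if d y ≤ k then 1 else 0) else 0) := by
      intro v _
      simp only [hd']
      by_cases hvx : v = x
      · subst hvx; simp only [Ne.symm hyx, if_true, if_false]; split_ifs <;> omega
      · by_cases hvy : v = y
        · subst hvy; simp only [hvx, if_true, if_false]; split_ifs <;> omega
        · simp [hvx, hvy]
    rw [sum_congr rfl this, sum_add_distrib, sum_add_distrib, sum_ite_eq', sum_ite_eq']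
  have hs2 : ∑ v, d' v + 2 = n := by
    have := hsumB univ
    simp only [mem_univ, if_true] at this
    omega
  have hev' : Even (∑ v, d' v) := by
    obtain ⟨r, hr⟩ := hev
    exact ⟨r - 1, by omega⟩
  -- the inequalities for d'
  have hEG : ∀ A : Finset V, ∑ a ∈ A, d' a ≤ A.card * (A.card - 1)
      + ∑ b ∈ Aᶜ, min (d' b) A.card := by
    intro A
    have hA := h A
    have h1 := hsumB A
    have h2 := hminB Aᶜ A.card
    by_cases hxA : x ∈ A
    · have : x ∉ Aᶜ := by simp [hxA]
      simp only [hxA, this, if_true, if_false] at h1 h2
      by_cases hyA : y ∈ A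
      · have : y ∉ Aᶜ := by simp [hyA]
        simp only [hyA, this, if_true, if_false] at h1 h2
        omega
      · have : y ∈ Aᶜ := by simp [hyA]
        simp only [hyA, this, if_true, if_false] at h1 h2
        split_ifs at h2 <;> omega
    · have hxA' : x ∈ Aᶜ := by simp [hxA]
      simp only [hxA, hxA', if_true, if_false] at h1 h2
      by_cases hyA : y ∈ A
      · have : y ∉ Aᶜ := by simp [hyA]
        simp only [hyA, this, if_true, if_false] at h1 h2
        split_ifs at h2 <;> omega
      · have hyA' : y ∈ Aᶜ := by simp [hyA]
        simp only [hyA, hyA', if_true, if_false] at h1 h2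
        set k := A.card with hk
        have hyx' := hmax y
        by_cases hdy : d y ≤ k
        swap
        · have : ¬ d x ≤ k := by omega
          simp only [hdy, this, if_false] at h2
          omega
        have hSA : ∑ a ∈ A, d a ≤ k * d x := by
          have := sum_le_card_nsmul A d (d x) (fun a _ => hmax a)
          simpa [hk] using this
        by_cases hdx : d x ≤ k
        · -- both small
          simp only [hdx, hdy, if_true] at h2
          have hall : ∑ b ∈ Aᶜ, min (d b) k = ∑ b ∈ Aᶜ, d b :=
            sum_congr rfl (fun b _ => min_eq_left ((hmax b).trans hdx))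
          have htot : ∑ a ∈ A, d a + ∑ b ∈ Aᶜ, d b = n := by
            rw [← hsum]; exact sum_add_sum_compl A d
          have hT : d x + d y ≤ ∑ b ∈ Aᶜ, d b := by
            rw [← sum_pair (Ne.symm hyx)]
            apply sum_le_sum_of_subset
            intro b hb
            simp only [mem_insert, mem_singleton] at hb
            rcases hb with rfl | rfl <;> assumption
          have hkk : Even (k * (k - 1)) := Nat.even_mul_pred_self k
          obtain ⟨p, hp⟩ := hkk
          obtain ⟨q, hq⟩ := hev
          have hstrict : ∑ a ∈ A, d a + 1 ≤ k * (k - 1) + ∑ b ∈ Aᶜ, d b := by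
            rcases Nat.lt_or_ge (d x) k with hlt | hge
            · have : k * d x ≤ k * (k - 1) := Nat.mul_le_mul_left _ (by omega)
              omega
            · have hdk : d x = k := le_antisymm hdx hge
              have : k * (k - 1) + k = k * k := mul_pred_add k
              rw [hdk] at hSA hT
              omega
          rw [hall] at h2 hA
          omega
        · -- d y ≤ k < d x
          simp only [hdx, hdy, if_true, if_false] at h2
          by_contra hcon
          have hEq : ∑ a ∈ A, d a = k * (k - 1) + ∑ b ∈ Aᶜ, min (d b) k := by omega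
          have hins := h (insert x A)
          rw [sum_insert hxA, card_insert_of_notMem hxA, ← hk] at hins
          have hcompl : Aᶜ = insert x ((insert x A)ᶜ) := by
            ext b; simp only [mem_compl, mem_insert, not_or]
            by_cases hb : b = x
            · subst hb; simp [hxA]
            · simp [hb]
          have hxn : x ∉ (insert x A)ᶜ := by simp
          set C := (insert x A)ᶜ with hC
          set Z := C.filter (fun z => k < d z) with hZ
          have e1 : ∑ b ∈ C, min (d b) (k + 1) = ∑ b ∈ C, min (d b) k + Z.card := by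
            rw [hZ, card_filter, ← sum_add_distrib]
            apply sum_congr rfl
            intro b _
            split_ifs <;> omega
          have e2 : ∑ b ∈ Aᶜ, min (d b) k = k + ∑ b ∈ C, min (d b) k := by
            rw [hcompl, sum_insert hxn]
            congr 1
            omega
          have e3 : k * Z.card + 1 ≤ ∑ b ∈ C, min (d b) k := by
            have hyC : y ∈ C := by simp [hC, hyA, hyx]
            have hyZ : y ∉ Z := by simp [hZ, hyC]; omega
            have hsub : insert y Z ⊆ C := by
              intro b hb
              rcases mem_insert.1 hb with rfl | hb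
              · exact hyC
              · exact (mem_filter.1 hb).1
            calc k * Z.card + 1 ≤ ∑ b ∈ insert y Z, min (d b) k := by
                  rw [sum_insert hyZ]
                  have : ∑ b ∈ Z, min (d b) k = Z.card * k := by
                    rw [sum_congr rfl (g := fun _ => k), sum_const, smul_eq_mul]
                    intro b hb
                    have := (mem_filter.1 hb).2
                    omega
                  rw [this, mul_comm k]
                  omega
              _ ≤ _ := sum_le_sum_of_subset hsub
          have hk2 : k * (k - 1) + k = k * k := mul_pred_add k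
          have hk3 : (k + 1) * (k + 1 - 1) = k * k + k := by
            simp only [Nat.add_sub_cancel]; ring
          rw [hk3, e1] at hins
          have hz : d x ≤ k + Z.card := by omega
          have hz2 : k * d x ≤ k * k + k * Z.card := by
            rw [← mul_add]; exact Nat.mul_le_mul_left _ hz
          omega
  obtain ⟨N, hs, hi, hN⟩ := ih _ (by omega) d' rfl hev' hEG
  have hNx : d x = (N x).card + 1 := by
    rw [hN]; have := hdd x; simp only [if_true, Ne.symm hyx, if_false] at this; omega
  have hNy : d y = (N y).card + 1 := by
    rw [hN]; have := hdd y; simp only [if_true, hyx, if_false] at this; omega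
  have hNo : ∀ v, v ≠ x → v ≠ y → d v = (N v).card := by
    intro v h1 h2
    rw [hN]; have := hdd v; simp only [h1, h2, if_false] at this; omega
  by_cases hadj : y ∈ N x
  swap
  · exact add_edge hs hi (Ne.symm hyx) hadj d hNx hNy hNo
  -- find z
  set P := univ.filter (fun v => v ≠ x ∧ 0 < d v) with hP
  have hPc : d x ≤ P.card := by
    have h1 := h {x}
    simp only [sum_singleton, card_singleton, Nat.sub_self, mul_zero, zero_add] at h1
    refine h1.trans ?_
    rw [hP, card_filter]
    have h3 : ∑ b ∈ ({x} : Finset V)ᶜ, min (d b) 1
        ≤ ∑ b ∈ ({x} : Finset V)ᶜ, (if b ≠ x ∧ 0 < d b then 1 else 0) := by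
      apply sum_le_sum
      intro b hb
      have hb' : b ≠ x := by simpa using hb
      simp only [hb', ne_eq, not_false_eq_true, true_and]
      split_ifs <;> omega
    exact h3.trans (sum_le_sum_of_subset (subset_univ _))
  have hNP : N x ⊆ P := by
    intro b hb
    have hbx : b ≠ x := by rintro rfl; exact hi _ hb
    have hb2 : x ∈ N b := (hs _ _).1 hb
    have : 0 < (N b).card := card_pos.2 ⟨x, hb2⟩
    rw [hN] at this
    have h3 := hdd b
    simp only [hP, mem_filter, mem_univ, true_and]
    exact ⟨hbx, by omega⟩
  obtain ⟨z, hzP, hzN⟩ : ∃ z ∈ P, z ∉ N x := by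
    by_contra hcon
    push Not at hcon
    have := card_le_card hcon
    omega
  simp only [hP, mem_filter, mem_univ, true_and] at hzP
  obtain ⟨hzx, hz1⟩ := hzP
  have hzy : z ≠ y := by rintro rfl; exact hzN hadj
  have hyz := hmin z hzx hz1
  have hxz : x ∉ N z := fun hh => hzN ((hs _ _).1 hh)
  -- find w
  obtain ⟨w, hw1, hw2⟩ : ∃ w ∈ N z, w ∉ insert y ((N y).erase x) := by
    by_contra hcon
    push Not at hcon
    have hxy : x ∈ N y := (hs _ _).1 hadj
    have hyN := hi y
    have c2 : (N z).card = d z := (hNo z hzx hzy).symm
    by_cases hzNy : z ∈ N y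
    · have hsub : N z ⊆ insert y (((N y).erase x).erase z) := by
        intro b hb
        have h1 := hcon b hb
        have hbz : b ≠ z := by rintro rfl; exact hi _ hb
        simp only [mem_insert, mem_erase] at h1 ⊢
        tauto
      have c1 := card_le_card hsub
      have c3 : (insert y (((N y).erase x).erase z)).card ≤ ((N y).card - 1 - 1) + 1 := by
        refine (card_insert_le _ _).trans ?_
        rw [card_erase_of_mem (by simp [hzNy, hzx]), card_erase_of_mem hxy]
      have c4 : 1 < (N y).card := one_lt_card.2 ⟨x, hxy, z, hzNy, Ne.symm hzx⟩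
      omega
    · have hsub : N z ⊆ (N y).erase x := by
        intro b hb
        have h1 := hcon b hb
        rcases mem_insert.1 h1 with rfl | h1
        · exact absurd ((hs _ _).1 hb) hzNy
        · exact h1
      have c1 := card_le_card hsub
      rw [card_erase_of_mem hxy] at c1
      omega
  have hwx : w ≠ x := by rintro rfl; exact hxz hw1
  have hwy : w ≠ y := by rintro rfl; simp at hw2
  have hwz : w ≠ z := by rintro rfl; exact hi _ hw1
  have hwNy : w ∉ N y := by
    intro hh; apply hw2; simp [hh, hwx]
  exact switch hs hi (Ne.symm hyx) (Ne.symm hzx) (Ne.symm hwx) (Ne.symm hzy) (Ne.symm hwy)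
    (Ne.symm hwz) hzN hwNy hw1 d hNx hNy hNo

/-- The Erdős–Gallai theorem for simple graphs, in subset form. -/
theorem exists_graph (d : V → ℕ) (hev : Even (∑ v, d v))
    (h : ∀ A : Finset V, ∑ a ∈ A, d a ≤ A.card * (A.card - 1) + ∑ b ∈ Aᶜ, min (d b) A.card) :
    ∃ H : SimpleGraph V, ∀ v, (H.neighborSet v).ncard = d v := by
  obtain ⟨N, hs, hi, hN⟩ := eg _ d rfl hev h
  refine ⟨{ Adj := fun u v => v ∈ N u, symm := ⟨fun u v huv => (hs _ _).1 huv⟩,
            loopless := ⟨fun v hv => hi v hv⟩ }, fun v => ?_⟩
  rw [← hN v, ← Set.ncard_coe_finset]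
  congr 1

end Q22.EG
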